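import Pool.Agent.W805.LR.Stm7

/-!
PD3-BX: almost all of the rate in a large box.
-/

set_option autoImplicit false

namespace Pool.Agent.W563.PD.BX

open Finset Filter Topology Pool.Agent.W805.PD

theorem main : S_box := by
  classical
  intro d φ ε hK hε
  obtain ⟨hφ0, _, _, hs⟩ := hK
  set S : ℝ := ∑' z, φ z with hS
  have hS0 : 0 ≤ S := tsum_nonneg hφ0
  obtain ⟨T, hT⟩ : ∃ T : Finset (Fin d → ℤ), S - ε / 2 < ∑ z ∈ T, φ z := by
    have h1 := hs.hasSum
    have h2 : ∀ᶠ T : Finset (Fin d → ℤ) in atTop, S - ε / 2 < ∑ z ∈ T, φ z :=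
      h1.eventually (lt_mem_nhds (by linarith))
    exact h2.exists
  obtain ⟨r, hr⟩ : ∃ r : ℕ, ∀ z ∈ T, ∀ a, (z a).natAbs ≤ r := by
    refine ⟨∑ z ∈ T, ∑ a, (z a).natAbs, ?_⟩
    intro z hz a
    calc (z a).natAbs ≤ ∑ a, (z a).natAbs :=
          Finset.single_le_sum (f := fun a => (z a).natAbs) (fun _ _ => Nat.zero_le _) (mem_univ a)
      _ ≤ ∑ z ∈ T, ∑ a, (z a).natAbs :=
          Finset.single_le_sum (f := fun z => ∑ a, (z a).natAbs) (fun _ _ => Nat.zero_le _) hz
  obtain ⟨N, hN⟩ := exists_nat_ge (4 * r * d * S / ε)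
  refine ⟨2 * r + 1 + N, by omega, ?_⟩
  intro M hM
  have hnn : ∀ u v : Fin d → Fin M, 0 ≤ freeJ φ u v := fun u v => hφ0 _
  have hrow : ∀ w : Fin d → Fin (M - 2 * r),
      ∑ z ∈ T, φ z ≤ ∑ v : Fin d → Fin M,
        freeJ φ (fun a => ⟨(w a : ℕ) + r, by have := (w a).2; omega⟩) v := by
    intro w
    set k : (Fin d → Fin M) → (Fin d → ℤ) := fun v a => ((v a : ℕ) : ℤ) - (((w a : ℕ) + r : ℕ) : ℤ)
      with hk
    have hinj : Function.Injective k := by
      intro v v' h
      funext a
      have := congrFun h a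
      simp only [hk] at this
      apply Fin.ext
      omega
    have h1 : ∑ v : Fin d → Fin M,
        freeJ φ (fun a => ⟨(w a : ℕ) + r, by have := (w a).2; omega⟩) v =
        ∑ z ∈ univ.image k, φ z := by
      rw [Finset.sum_image (fun a _ b _ h => hinj h)]
      rfl
    rw [h1]
    apply Finset.sum_le_sum_of_subset_of_nonneg
    · intro z hz
      rw [mem_image]
      refine ⟨fun a => ⟨(((w a : ℕ) + r : ℕ) + z a : ℤ).toNat, ?_⟩, mem_univ _, ?_⟩
      · have h2 := hr z hz a
        have h3 := (w a).2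
        omega
      · funext a
        have h2 := hr z hz a
        have h3 := (w a).2
        simp only [hk]
        omega
    · intro z _ _
      exact hφ0 z
  have hbig : ((M - 2 * r : ℕ) : ℝ) ^ d * ∑ z ∈ T, φ z ≤
      ∑ u : Fin d → Fin M, ∑ v : Fin d → Fin M, freeJ φ u v := by
    set ι : (Fin d → Fin (M - 2 * r)) → (Fin d → Fin M) :=
      fun w a => ⟨(w a : ℕ) + r, by have := (w a).2; omega⟩ with hι
    have hinj : Function.Injective ι := by
      intro v v' h
      funext a
      have := congrFun h a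
      simp only [hι, Fin.mk.injEq] at this
      apply Fin.ext
      omega
    calc ((M - 2 * r : ℕ) : ℝ) ^ d * ∑ z ∈ T, φ z
        = ∑ w : Fin d → Fin (M - 2 * r), ∑ z ∈ T, φ z := by
          rw [Finset.sum_const, Finset.card_univ, Fintype.card_fun, Fintype.card_fin,
            Fintype.card_fin, nsmul_eq_mul]
          push_cast
          ring
      _ ≤ ∑ w : Fin d → Fin (M - 2 * r), ∑ v, freeJ φ (ι w) v :=
          Finset.sum_le_sum fun w _ => hrow w
      _ = ∑ u ∈ univ.image ι, ∑ v, freeJ φ u v := by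
          rw [Finset.sum_image (fun a _ b _ h => hinj h)]
      _ ≤ _ := Finset.sum_le_univ_sum_of_nonneg fun u => Finset.sum_nonneg fun v _ => hnn u v
  refine le_trans ?_ hbig
  have hMpos : (0 : ℝ) < M := by
    have : 0 < M := by omega
    exact_mod_cast this
  rcases le_or_gt (S - ε) 0 with hneg | hpos
  · have hTn : 0 ≤ ∑ z ∈ T, φ z := Finset.sum_nonneg fun z _ => hφ0 z
    have h1 : (S - ε) * (M : ℝ) ^ d ≤ 0 := mul_nonpos_of_nonpos_of_nonneg hneg (by positivity)
    have h2 : 0 ≤ ((M - 2 * r : ℕ) : ℝ) ^ d * ∑ z ∈ T, φ z := by positivity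
    linarith
  · have hsub : ((M - 2 * r : ℕ) : ℝ) = (M : ℝ) - 2 * r := by
      rw [Nat.cast_sub (by omega)]; push_cast; ring
    have hbern : 1 + (d : ℝ) * (-(2 * r / M)) ≤ (1 + (-(2 * r / M))) ^ d := by
      apply one_add_mul_le_pow
      have h3 : 2 * (r : ℝ) / M ≤ 1 := by
        rw [div_le_one hMpos]
        have : 2 * r ≤ M := by omega
        exact_mod_cast this
      linarith
    have h4 : ((M - 2 * r : ℕ) : ℝ) ^ d = (M : ℝ) ^ d * (1 + (-(2 * r / M))) ^ d := by
      rw [← mul_pow, hsub]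
      congr 1
      field_simp
      ring
    have h5 : 4 * r * d * S / ε ≤ M := by
      refine hN.trans ?_
      have : N ≤ M := by omega
      exact_mod_cast this
    have h6 : 2 * r * d / M * S ≤ ε / 2 := by
      rw [div_mul_eq_mul_div, div_le_iff₀ hMpos]
      rw [div_le_iff₀ hε] at h5
      linarith
    have h7 : S - ε ≤ (1 + (-(2 * r / M))) ^ d * ∑ z ∈ T, φ z := by
      have h8 : 0 ≤ (2 * r * d / M : ℝ) := by positivity
      have h9 : (1 + (d : ℝ) * (-(2 * r / M))) = 1 - 2 * r * d / M := by ring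
      rw [h9] at hbern
      calc S - ε ≤ (1 - 2 * r * d / M) * (S - ε / 2) := by nlinarith
        _ ≤ (1 + (-(2 * r / M))) ^ d * (S - ε / 2) := by
            apply mul_le_mul_of_nonneg_right hbern; linarith
        _ ≤ _ := by
            apply mul_le_mul_of_nonneg_left hT.le
            apply pow_nonneg
            have h3 : 2 * (r : ℝ) / M ≤ 1 := by
              rw [div_le_one hMpos]
              have : 2 * r ≤ M := by omega
              exact_mod_cast this
            linarith
    rw [h4, mul_assoc, mul_comm (S - ε)]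
    exact mul_le_mul_of_nonneg_left h7 (by positivity)

end Pool.Agent.W563.PD.BX
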